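import Pool.Agent.helper25.TW.Spec

set_option autoImplicit false

namespace TP.TW

open DP MeasureTheory Finset

private theorem EIN_meas {F : Set (V → Bool)} {A : Set V} (h : Loc F A) : MeasurableSet F := by
  classical
  obtain ⟨Λ, _, h2⟩ := h
  have h1 : F = (Λ.image br).restrict ⁻¹'
      {x : ↥(Λ.image br) → Bool |
        (fun v => if h : v ∈ Λ.image br then x ⟨v, h⟩ else false) ∈ F} := by
    ext b
    simp only [Set.mem_preimage, Set.mem_ofPred_eq]
    apply h2
    intro v hv
    have hv2 : br v ∈ Λ.image br := Finset.mem_image_of_mem br (Finset.mem_coe.1 hv)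
    rw [dif_pos hv2]
    rfl
  rw [h1]
  exact Finset.measurable_restrict (Λ.image br) (Set.toFinite _).measurableSet

private theorem EIN_prob : IsProbabilityMeasure P1 := by
  unfold P1
  infer_instance

private theorem EIN_int (E : Set (V → Bool)) (hE : MeasurableSet E) :
    Integrable (E.indicator fun _ => (1 : ℝ)) P1 := by
  have := EIN_prob
  exact (integrable_const (1 : ℝ)).indicator hE

private theorem EIN_pr (E : Set (V → Bool)) (hE : MeasurableSet E) :
    Pr E = ∫ β, E.indicator (fun _ => (1 : ℝ)) β ∂P1 := by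
  rw [integral_indicator_const _ hE, smul_eq_mul, mul_one]
  rfl

open Classical in
theorem EIN : EIN_stmt := by
  intro ι κ s t F G A N hF hG h
  have hm1 : ∀ i ∈ s, MeasurableSet (F i) := fun i hi => EIN_meas (hF i hi)
  have hm2 : ∀ j ∈ t, MeasurableSet (G j) := fun j hj => EIN_meas (hG j hj)
  have e1 : ∑ i ∈ s, Pr (F i) = ∫ β, ∑ i ∈ s, (F i).indicator (fun _ => (1 : ℝ)) β ∂P1 := by
    rw [integral_finsetSum s (fun i hi => EIN_int _ (hm1 i hi))]
    exact Finset.sum_congr rfl (fun i hi => EIN_pr _ (hm1 i hi))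
  have e2 : ∑ j ∈ t, Pr (G j) = ∫ β, ∑ j ∈ t, (G j).indicator (fun _ => (1 : ℝ)) β ∂P1 := by
    rw [integral_finsetSum t (fun j hj => EIN_int _ (hm2 j hj))]
    exact Finset.sum_congr rfl (fun j hj => EIN_pr _ (hm2 j hj))
  rw [e1, e2, ← integral_const_mul]
  refine integral_mono (integrable_finsetSum s (fun i hi => EIN_int _ (hm1 i hi)))
    ((integrable_finsetSum t (fun j hj => EIN_int _ (hm2 j hj))).const_mul _) (fun β => ?_)
  have h1 : ∑ i ∈ s, (F i).indicator (fun _ => (1 : ℝ)) β = (#{i ∈ s | β ∈ F i} : ℝ) := by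
    rw [← Finset.sum_boole]
    exact Finset.sum_congr rfl (fun i _ => by rw [Set.indicator_apply])
  have h2 : ∑ j ∈ t, (G j).indicator (fun _ => (1 : ℝ)) β = (#{j ∈ t | β ∈ G j} : ℝ) := by
    rw [← Finset.sum_boole]
    exact Finset.sum_congr rfl (fun j _ => by rw [Set.indicator_apply])
  simp only [h1, h2]
  exact_mod_cast h β

end TP.TW
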