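import Pool.Agent.helper25.TW.Spec2

set_option autoImplicit false

namespace TP.TW

open DP MeasureTheory Finset

private theorem DBL_geo (h : ℕ) : ∀ L : ℕ,
    (L ≤ h + 1 → ∑ s ∈ range L, (if h < s then (1 / 4 : ℝ) ^ s else 0) = 0) ∧
    (h + 1 ≤ L → ∑ s ∈ range L, (if h < s then (1 / 4 : ℝ) ^ s else 0) + 4 / 3 * (1 / 4 : ℝ) ^ L =
      1 / 3 * (1 / 4 : ℝ) ^ h) := by
  intro L
  induction L with
  | zero => exact ⟨fun _ => by simp, fun hL => by omega⟩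
  | succ L ih =>
    obtain ⟨ih1, ih2⟩ := ih
    refine ⟨fun hL => ?_, fun hL => ?_⟩
    · rw [Finset.sum_range_succ, ih1 (by omega), if_neg (by omega)]
      simp
    · rcases Nat.lt_or_ge L (h + 1) with h1 | h1
      · have h2 : L = h := by omega
        rw [Finset.sum_range_succ, ih1 (by omega), if_neg (by omega), h2, pow_succ]
        ring
      · have h3 := ih2 h1
        rw [Finset.sum_range_succ, if_pos (by omega), pow_succ]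
        linarith

private theorem DBL_geo2 (h L : ℕ) :
    ∑ s ∈ range L, (if h < s then (1 / 4 : ℝ) ^ s else 0) ≤ (1 / 4 : ℝ) ^ h := by
  have h0 : (0 : ℝ) ≤ (1 / 4 : ℝ) ^ h := by positivity
  have h1 : (0 : ℝ) ≤ (1 / 4 : ℝ) ^ L := by positivity
  rcases Nat.lt_or_ge (h + 1) L with h2 | h2
  · have := (DBL_geo h L).2 (by omega)
    linarith
  · rw [(DBL_geo h L).1 h2]
    exact h0

private theorem DBL_count (G : Finset V) (i : V) (u v : ℤ) (N : ℕ) :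
    #(G.filter fun w => sd (w.1 + u, w.2 + v) i ≤ N) ≤ (2 * N + 1) ^ 2 := by
  have hsub : (G.filter fun w => sd (w.1 + u, w.2 + v) i ≤ N) ⊆
      (Icc (i.1 - u - N) (i.1 - u + N)) ×ˢ (Icc (i.2 - v - N) (i.2 - v + N)) := by
    intro w hw
    have hw2 := (Finset.mem_filter.1 hw).2
    unfold sd at hw2
    simp only [] at hw2
    rw [Finset.mem_product, Finset.mem_Icc, Finset.mem_Icc]
    omega
  refine (Finset.card_le_card hsub).trans ?_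
  rw [Finset.card_product, Int.card_Icc, Int.card_Icc, sq]
  exact Nat.mul_le_mul (by omega) (by omega)

private theorem DBL_arith (i v₀ : V) (h s : ℕ) (p q : ℤ) (hp : p ∈ Icc (-400 : ℤ) 400)
    (hq : q ∈ Icc (-400 : ℤ) 400) (h1 : 512 * 2 ^ h < sd v₀ i)
    (h2 : sd (v₀.1 + 2 ^ s * p, v₀.2 + 2 ^ s * q) i ≤ 3 * 2 ^ s + 3 * 2 ^ h) : h < s := by
  rw [Finset.mem_Icc] at hp hq
  by_contra hc
  have hle : 2 ^ s ≤ 2 ^ h := Nat.pow_le_pow_right (by norm_num) (by omega)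
  have hP : (0 : ℤ) ≤ (2 : ℤ) ^ s := by positivity
  have hPc : ((2 ^ s : ℕ) : ℤ) = (2 : ℤ) ^ s := by push_cast; ring
  have a1 : (2 : ℤ) ^ s * p ≤ 400 * (2 : ℤ) ^ s := by nlinarith [hp.2]
  have a2 : -(400 * (2 : ℤ) ^ s) ≤ (2 : ℤ) ^ s * p := by nlinarith [hp.1]
  have b1 : (2 : ℤ) ^ s * q ≤ 400 * (2 : ℤ) ^ s := by nlinarith [hq.2]
  have b2 : -(400 * (2 : ℤ) ^ s) ≤ (2 : ℤ) ^ s * q := by nlinarith [hq.1]
  unfold sd at h1 h2
  simp only [] at h1 h2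
  generalize (2 : ℤ) ^ s * p = X at *
  generalize (2 : ℤ) ^ s * q = Y at *
  rw [← hPc] at a1 a2 b1 b2
  generalize 2 ^ s = S at *
  generalize 2 ^ h = H at *
  omega

private theorem DBL_one (G : Finset V) (i : V) (h s : ℕ) (p q : ℤ) (hp : p ∈ Icc (-400 : ℤ) 400)
    (hq : q ∈ Icc (-400 : ℤ) 400) (hG : ∀ v₀ ∈ G, 512 * 2 ^ h < sd v₀ i) (a : ℝ) (ha : 0 ≤ a) :
    ∑ v₀ ∈ G, (if sd (v₀.1 + 2 ^ s * p, v₀.2 + 2 ^ s * q) i ≤ 3 * 2 ^ s + 3 * 2 ^ h then a else 0) ≤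
      if h < s then 169 * 4 ^ s * a else 0 := by
  rw [← Finset.sum_filter, Finset.sum_const, nsmul_eq_mul]
  split_ifs with hs
  · refine mul_le_mul_of_nonneg_right ?_ ha
    have h1 : #(G.filter fun v₀ => sd (v₀.1 + 2 ^ s * p, v₀.2 + 2 ^ s * q) i ≤ 3 * 2 ^ s + 3 * 2 ^ h) ≤
        #(G.filter fun v₀ => sd (v₀.1 + 2 ^ s * p, v₀.2 + 2 ^ s * q) i ≤ 6 * 2 ^ s) := by
      refine Finset.card_le_card (fun v hv => ?_)
      rw [Finset.mem_filter] at hv ⊢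
      have hle : 2 ^ h ≤ 2 ^ s := Nat.pow_le_pow_right (by norm_num) (by omega)
      exact ⟨hv.1, hv.2.trans (by omega)⟩
    have h2 := DBL_count G i (2 ^ s * p) (2 ^ s * q) (6 * 2 ^ s)
    have h3 : (2 * (6 * 2 ^ s) + 1) ^ 2 ≤ 169 * 4 ^ s := by
      have h4 : 1 ≤ 2 ^ s := Nat.one_le_two_pow
      have h5 : (4 : ℕ) ^ s = (2 ^ s) ^ 2 := by
        rw [← pow_mul, mul_comm, pow_mul]
        norm_num
      rw [h5]
      nlinarith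
    have h4 := (h1.trans h2).trans h3
    exact_mod_cast h4
  · have h1 : G.filter (fun v₀ => sd (v₀.1 + 2 ^ s * p, v₀.2 + 2 ^ s * q) i ≤ 3 * 2 ^ s + 3 * 2 ^ h) = ∅ := by
      refine Finset.filter_eq_empty_iff.2 (fun v hv hc => hs ?_)
      exact DBL_arith i v h s p q hp hq (hG v hv) hc
    rw [h1]
    simp

private theorem DBL_val (h s : ℕ) :
    169 * (4 : ℝ) ^ s * (7 / (2 : ℝ) ^ s * (2 ^ h * (16 * 2 ^ h / (2 : ℝ) ^ s) ^ 3)) =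
      4845568 * (16 : ℝ) ^ h * (1 / 4 : ℝ) ^ s := by
  have e1 : (4 : ℝ) ^ s = (2 ^ s) ^ 2 := by rw [← pow_mul, mul_comm, pow_mul]; norm_num
  have e2 : (16 : ℝ) ^ h = (2 ^ h) ^ 4 := by rw [← pow_mul, mul_comm, pow_mul]; norm_num
  have e3 : (1 / 4 : ℝ) ^ s = 1 / (2 ^ s) ^ 2 := by rw [one_div, inv_pow, e1, one_div]
  have h0 : (2 : ℝ) ^ s ≠ 0 := by positivity
  rw [e1, e2, e3]
  field_simp
  ring

theorem DBL : DBL_stmt := by
  refine ⟨801 ^ 2 * 4845568, by norm_num, ?_⟩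
  intro L G I h hG
  -- exchange the sums
  have e1 : ∀ (v₀ : V) (s : ℕ) (p q : ℤ), 7 / (2 : ℝ) ^ s *
      ∑ i ∈ I.filter (fun i => sd (v₀.1 + 2 ^ s * p, v₀.2 + 2 ^ s * q) i ≤ 3 * 2 ^ s + 3 * 2 ^ h i),
        2 ^ h i * (16 * 2 ^ h i / (2 : ℝ) ^ s) ^ 3 =
      ∑ i ∈ I, (if sd (v₀.1 + 2 ^ s * p, v₀.2 + 2 ^ s * q) i ≤ 3 * 2 ^ s + 3 * 2 ^ h i then
        7 / (2 : ℝ) ^ s * (2 ^ h i * (16 * 2 ^ h i / (2 : ℝ) ^ s) ^ 3) else 0) := by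
    intro v₀ s p q
    rw [Finset.mul_sum, Finset.sum_filter]
  simp only [e1]
  rw [Finset.sum_comm]
  have e2 : ∀ s ∈ range L, ∑ v₀ ∈ G, ∑ p ∈ Icc (-400 : ℤ) 400, ∑ q ∈ Icc (-400 : ℤ) 400, ∑ i ∈ I,
      (if sd (v₀.1 + 2 ^ s * p, v₀.2 + 2 ^ s * q) i ≤ 3 * 2 ^ s + 3 * 2 ^ h i then
        7 / (2 : ℝ) ^ s * (2 ^ h i * (16 * 2 ^ h i / (2 : ℝ) ^ s) ^ 3) else 0) ≤
      801 ^ 2 * ∑ i ∈ I, (if h i < s then 4845568 * (16 : ℝ) ^ h i * (1 / 4 : ℝ) ^ s else 0) := by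
    intro s _
    rw [Finset.sum_comm]
    have c0 : (#(Icc (-400 : ℤ) 400) : ℝ) = 801 := by
      have c00 : #(Icc (-400 : ℤ) 400) = 801 := by rw [Int.card_Icc]; rfl
      rw [c00]
      norm_num
    have c1 : ∀ p ∈ Icc (-400 : ℤ) 400, ∑ v₀ ∈ G, ∑ q ∈ Icc (-400 : ℤ) 400, ∑ i ∈ I,
        (if sd (v₀.1 + 2 ^ s * p, v₀.2 + 2 ^ s * q) i ≤ 3 * 2 ^ s + 3 * 2 ^ h i then
          7 / (2 : ℝ) ^ s * (2 ^ h i * (16 * 2 ^ h i / (2 : ℝ) ^ s) ^ 3) else 0) ≤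
        801 * ∑ i ∈ I, (if h i < s then 4845568 * (16 : ℝ) ^ h i * (1 / 4 : ℝ) ^ s else 0) := by
      intro p hp
      rw [Finset.sum_comm]
      have c2 : ∀ q ∈ Icc (-400 : ℤ) 400, ∑ v₀ ∈ G, ∑ i ∈ I,
          (if sd (v₀.1 + 2 ^ s * p, v₀.2 + 2 ^ s * q) i ≤ 3 * 2 ^ s + 3 * 2 ^ h i then
            7 / (2 : ℝ) ^ s * (2 ^ h i * (16 * 2 ^ h i / (2 : ℝ) ^ s) ^ 3) else 0) ≤
          ∑ i ∈ I, (if h i < s then 4845568 * (16 : ℝ) ^ h i * (1 / 4 : ℝ) ^ s else 0) := by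
        intro q hq
        rw [Finset.sum_comm]
        refine Finset.sum_le_sum (fun i hi => ?_)
        have h1 := DBL_one G i (h i) s p q hp hq (fun v₀ hv => hG v₀ hv i hi)
          (7 / (2 : ℝ) ^ s * (2 ^ h i * (16 * 2 ^ h i / (2 : ℝ) ^ s) ^ 3)) (by positivity)
        rw [DBL_val] at h1
        exact h1
      refine (Finset.sum_le_card_nsmul _ _ _ c2).trans ?_
      rw [nsmul_eq_mul, c0]
    refine (Finset.sum_le_card_nsmul _ _ _ c1).trans ?_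
    rw [nsmul_eq_mul, c0]
    apply le_of_eq
    ring
  refine (Finset.sum_le_sum e2).trans ?_
  rw [← Finset.mul_sum, Finset.sum_comm, mul_assoc]
  refine mul_le_mul_of_nonneg_left ?_ (by norm_num)
  rw [Finset.mul_sum]
  refine Finset.sum_le_sum (fun i _ => ?_)
  have e3 : ∑ s ∈ range L, (if h i < s then 4845568 * (16 : ℝ) ^ h i * (1 / 4 : ℝ) ^ s else 0) =
      4845568 * (16 : ℝ) ^ h i * ∑ s ∈ range L, (if h i < s then (1 / 4 : ℝ) ^ s else 0) := by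
    rw [Finset.mul_sum]
    refine Finset.sum_congr rfl (fun s _ => ?_)
    split_ifs
    · rfl
    · simp
  rw [e3]
  have e4 : (16 : ℝ) ^ h i * (1 / 4 : ℝ) ^ h i = 4 ^ h i := by
    rw [← mul_pow]; norm_num
  calc 4845568 * (16 : ℝ) ^ h i * ∑ s ∈ range L, (if h i < s then (1 / 4 : ℝ) ^ s else 0)
      ≤ 4845568 * (16 : ℝ) ^ h i * (1 / 4 : ℝ) ^ h i :=
        mul_le_mul_of_nonneg_left (DBL_geo2 (h i) L) (by positivity)
    _ = 4845568 * 4 ^ h i := by rw [mul_assoc, e4]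

end TP.TW
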